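import Pool.Agent.K4H68.CL.Sum

set_option autoImplicit false

open Finset

namespace Pool.Agent.K4H68.CL

variable {V : Type*} [DecidableEq V]

/-- Goodman's inequality, ordered version -/
theorem goodman (S : Finset V) (r : V → V → ℤ) (hr : ∀ u v, r u v = 0 ∨ r u v = 1)
    (hs : ∀ u v, r u v = r v u) :
    2 * (∑ u ∈ S, ∑ v ∈ S, r u v) ^ 2 - (S.card : ℤ) ^ 2 * (∑ u ∈ S, ∑ v ∈ S, r u v) ≤
      S.card * ∑ u ∈ S, ∑ v ∈ S, ∑ w ∈ S, r u v * r u w * r v w := by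
  set N := ∑ u ∈ S, ∑ v ∈ S, r u v with hN
  have e1 : ∑ u ∈ S, ∑ v ∈ S, ∑ w ∈ S, (r u v * r u w + r u v * r v w - r u v) =
      2 * ∑ u ∈ S, (∑ v ∈ S, r u v) ^ 2 - S.card * N := by
    have a1 : ∑ u ∈ S, ∑ v ∈ S, ∑ w ∈ S, r u v * r u w = ∑ u ∈ S, (∑ v ∈ S, r u v) ^ 2 := by
      refine sum_congr rfl fun u _ => ?_
      rw [sq, Finset.sum_mul_sum]
    have a2 : ∑ u ∈ S, ∑ v ∈ S, ∑ w ∈ S, r u v * r v w = ∑ u ∈ S, (∑ v ∈ S, r u v) ^ 2 := by
      rw [Finset.sum_comm]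
      refine sum_congr rfl fun v _ => ?_
      rw [sq, Finset.sum_mul_sum]
      refine sum_congr rfl fun u _ => sum_congr rfl fun w _ => by rw [hs u v]
    have a3 : ∑ u ∈ S, ∑ v ∈ S, ∑ _w ∈ S, r u v = S.card * N := by
      rw [hN, Finset.mul_sum]
      refine sum_congr rfl fun u _ => ?_
      rw [Finset.mul_sum]
      refine sum_congr rfl fun v _ => ?_
      rw [Finset.sum_const, nsmul_eq_mul]
    simp only [Finset.sum_sub_distrib, Finset.sum_add_distrib]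
    rw [a1, a2, a3]
    ring
  have e2 : ∑ u ∈ S, ∑ v ∈ S, ∑ w ∈ S, (r u v * r u w + r u v * r v w - r u v) ≤
      ∑ u ∈ S, ∑ v ∈ S, ∑ w ∈ S, r u v * r u w * r v w := by
    refine sum_le_sum fun u _ => sum_le_sum fun v _ => sum_le_sum fun w _ => ?_
    rcases hr u v with h1 | h1 <;> rcases hr u w with h2 | h2 <;> rcases hr v w with h3 | h3 <;>
      rw [h1, h2, h3] <;> norm_num
  have e3 : N ^ 2 ≤ S.card * ∑ u ∈ S, (∑ v ∈ S, r u v) ^ 2 := by
    rw [hN]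
    exact sq_sum_le_card_mul_sum_sq
  rw [e1] at e2
  have hc : (0 : ℤ) ≤ S.card := by positivity
  nlinarith [mul_le_mul_of_nonneg_left e2 hc]

/-- de Caen's bound -/
theorem de_caen {H : Finset (Finset V)} (h3 : Three H) (hF : Free H) (S : Finset V) :
    3 * E H S ≤ 2 * (S.card : ℤ) ^ 3 := by
  have e1 : ∑ u ∈ S, ∑ v ∈ S, ∑ w ∈ S, ∑ z ∈ S, h H u v w * (h H u v z + h H u w z + h H v w z) ≤
      ∑ u ∈ S, ∑ v ∈ S, ∑ w ∈ S, ∑ _z ∈ S, 2 * h H u v w := by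
    refine sum_le_sum fun u _ => sum_le_sum fun v _ => sum_le_sum fun w _ =>
      sum_le_sum fun z _ => ?_
    rcases h_zero_or H u v w with h1 | h1 <;> rcases h_zero_or H u v z with h2 | h2 <;>
      rcases h_zero_or H u w z with h4 | h4 <;> rcases h_zero_or H v w z with h5 | h5
    all_goals first
      | (rw [h1, h2, h4, h5]; norm_num; done)
      | exact (no_four h3 hF (h_eq_one.1 h1) (h_eq_one.1 h2) (h_eq_one.1 h4)
          (h_eq_one.1 h5)).elim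
  have e2 : ∑ u ∈ S, ∑ v ∈ S, ∑ w ∈ S, ∑ _z ∈ S, 2 * h H u v w = 2 * S.card * E H S := by
    unfold E
    rw [Finset.mul_sum]
    refine sum_congr rfl fun u _ => ?_
    rw [Finset.mul_sum]
    refine sum_congr rfl fun v _ => ?_
    rw [Finset.mul_sum]
    refine sum_congr rfl fun w _ => ?_
    rw [Finset.sum_const, nsmul_eq_mul]
    ring
  have a1 : ∑ u ∈ S, ∑ v ∈ S, ∑ w ∈ S, ∑ z ∈ S, h H u v w * h H u v z =
      ∑ u ∈ S, ∑ v ∈ S, (∑ w ∈ S, h H u v w) ^ 2 := by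
    refine sum_congr rfl fun u _ => sum_congr rfl fun v _ => ?_
    rw [sq, Finset.sum_mul_sum]
  have a2 : ∑ u ∈ S, ∑ v ∈ S, ∑ w ∈ S, ∑ z ∈ S, h H u v w * h H u w z =
      ∑ u ∈ S, ∑ v ∈ S, (∑ w ∈ S, h H u v w) ^ 2 := by
    refine sum_congr rfl fun u _ => ?_
    rw [Finset.sum_comm]
    refine sum_congr rfl fun w _ => ?_
    rw [sq, Finset.sum_mul_sum]
    refine sum_congr rfl fun v _ => sum_congr rfl fun z _ => by rw [h_swap H u v w]
  have a3 : ∑ u ∈ S, ∑ v ∈ S, ∑ w ∈ S, ∑ z ∈ S, h H u v w * h H v w z =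
      ∑ u ∈ S, ∑ v ∈ S, (∑ w ∈ S, h H u v w) ^ 2 := by
    have : ∑ u ∈ S, ∑ v ∈ S, ∑ w ∈ S, ∑ z ∈ S, h H u v w * h H v w z =
        ∑ v ∈ S, ∑ w ∈ S, ∑ u ∈ S, ∑ z ∈ S, h H u v w * h H v w z := by
      rw [Finset.sum_comm]
      refine sum_congr rfl fun v _ => ?_
      rw [Finset.sum_comm]
    rw [this]
    refine sum_congr rfl fun v _ => sum_congr rfl fun w _ => ?_
    rw [sq, Finset.sum_mul_sum]
    refine sum_congr rfl fun u _ => sum_congr rfl fun z _ => by rw [h_rot H u v w]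
  have e3 : (E H S) ^ 2 ≤ (S.card : ℤ) ^ 2 * ∑ u ∈ S, ∑ v ∈ S, (∑ w ∈ S, h H u v w) ^ 2 := by
    have b1 : (E H S) ^ 2 ≤ S.card * ∑ u ∈ S, (∑ v ∈ S, ∑ w ∈ S, h H u v w) ^ 2 := by
      unfold E
      exact sq_sum_le_card_mul_sum_sq
    have b2 : ∑ u ∈ S, (∑ v ∈ S, ∑ w ∈ S, h H u v w) ^ 2 ≤
        ∑ u ∈ S, S.card * ∑ v ∈ S, (∑ w ∈ S, h H u v w) ^ 2 :=
      sum_le_sum fun u _ => sq_sum_le_card_mul_sum_sq
    rw [← Finset.mul_sum] at b2
    have hc : (0 : ℤ) ≤ S.card := by positivity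
    nlinarith [mul_le_mul_of_nonneg_left b2 hc]
  simp only [mul_add, Finset.sum_add_distrib] at e1
  rw [a1, a2, a3, e2] at e1
  set D := ∑ u ∈ S, ∑ v ∈ S, (∑ w ∈ S, h H u v w) ^ 2 with hD
  have hE : 0 ≤ E H S := by
    unfold E
    exact sum_nonneg fun u _ => sum_nonneg fun v _ => sum_nonneg fun w _ => h_nonneg _ _ _ _
  rcases eq_or_lt_of_le hE with h0 | h0
  · rw [← h0]; positivity
  · have hc : (0 : ℤ) ≤ S.card := by positivity
    have : E H S * (3 * E H S) ≤ E H S * (2 * (S.card : ℤ) ^ 3) := by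
      nlinarith [mul_le_mul_of_nonneg_left e1 (sq_nonneg (S.card : ℤ))]
    exact le_of_mul_le_mul_left this h0

/-- the link graph of a vertex on a set: number of ordered pairs -/
def N (H : Finset (Finset V)) (S : Finset V) (c : V) : ℤ := ∑ u ∈ S, ∑ v ∈ S, h H c u v

/-- the link graph of a vertex on a set: number of ordered triangles -/
def T (H : Finset (Finset V)) (S : Finset V) (c : V) : ℤ :=
  ∑ u ∈ S, ∑ v ∈ S, ∑ w ∈ S, h H c u v * h H c u w * h H c v w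

theorem N_T (H : Finset (Finset V)) (S : Finset V) (c : V) :
    2 * N H S c ^ 2 - (S.card : ℤ) ^ 2 * N H S c ≤ S.card * T H S c :=
  goodman S (fun u v => h H c u v) (fun u v => h_zero_or H c u v) (fun u v => h_swap H c u v)

theorem N_nonneg (H : Finset (Finset V)) (S : Finset V) (c : V) : 0 ≤ N H S c :=
  sum_nonneg fun _ _ => sum_nonneg fun _ _ => h_nonneg _ _ _ _

theorem N_le (H : Finset (Finset V)) (S : Finset V) (c : V) : N H S c ≤ (S.card : ℤ) ^ 2 := by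
  have : N H S c ≤ ∑ _u ∈ S, ∑ _v ∈ S, (1 : ℤ) :=
    sum_le_sum fun _ _ => sum_le_sum fun _ _ => h_le_one _ _ _ _
  refine this.trans (le_of_eq ?_)
  simp [sq]

theorem E_T {H : Finset (Finset V)} (h3 : Three H) (hF : Free H) (S : Finset V) (c : V) :
    E H S + T H S c ≤ (S.card : ℤ) ^ 3 := by
  have : E H S + T H S c ≤ ∑ _u ∈ S, ∑ _v ∈ S, ∑ _w ∈ S, (1 : ℤ) := by
    unfold E T
    simp only [← Finset.sum_add_distrib]
    refine sum_le_sum fun u _ => sum_le_sum fun v _ => sum_le_sum fun w _ => ?_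
    rcases h_zero_or H u v w with h1 | h1 <;> rcases h_zero_or H c u v with h2 | h2 <;>
      rcases h_zero_or H c u w with h4 | h4 <;> rcases h_zero_or H c v w with h5 | h5
    all_goals first
      | (rw [h1, h2, h4, h5]; norm_num; done)
      | exact (no_four h3 hF (h_eq_one.1 h2) (h_eq_one.1 h4) (h_eq_one.1 h5)
          (h_eq_one.1 h1)).elim
  refine this.trans (le_of_eq ?_)
  simp [pow_succ, mul_assoc]

theorem E_le (H : Finset (Finset V)) (S : Finset V) : E H S ≤ (S.card : ℤ) ^ 3 := by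
  have : E H S ≤ ∑ _u ∈ S, ∑ _v ∈ S, ∑ _w ∈ S, (1 : ℤ) :=
    sum_le_sum fun u _ => sum_le_sum fun v _ => sum_le_sum fun w _ => h_le_one _ _ _ _
  refine this.trans (le_of_eq ?_)
  simp [pow_succ, mul_assoc]

end Pool.Agent.K4H68.CL
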