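import Mathlib

set_option autoImplicit false

namespace Pool.Agent.K4H68.CL

/-! Bounds for the edges outside `A`: `s = σ`, `c` the number of the other vertices outside `A`,
`N` the largest number of ordered link pairs, `T` the number of ordered triangles. -/

theorem y1 {s c N T : ℝ} (hs : 0 < s) (hsc : s ≤ c) (hN1 : N ≤ s ^ 2)
    (hG : 2 * N ^ 2 - s ^ 2 * N ≤ s * T) :
    9 * (s ^ 3 - T) + 27 * c * N ≤ 27 * c * s ^ 2 := by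
  have h1 : s * (9 * (s ^ 3 - T) + 27 * c * N) ≤ s * (27 * c * s ^ 2) := by
    nlinarith [mul_nonneg (mul_nonneg hs.le (sub_nonneg.2 hN1)) (sub_nonneg.2 hsc),
      sq_nonneg (s ^ 2 - N)]
  exact le_of_mul_le_mul_left h1 hs

theorem y2 {s c N T : ℝ} (hs : 0 < s)
    (hG : 2 * N ^ 2 - s ^ 2 * N ≤ s * T) :
    9 * (s ^ 3 - T) + 27 * c * N ≤ 9 * s ^ 3 + 9 / 8 * s * (3 * c + s) ^ 2 := by
  have h1 : s * (9 * (s ^ 3 - T) + 27 * c * N) ≤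
      s * (9 * s ^ 3 + 9 / 8 * s * (3 * c + s) ^ 2) := by
    nlinarith [sq_nonneg (N - s * (3 * c + s) / 4)]
  exact le_of_mul_le_mul_left h1 hs

/-- with the bound of de Caen for the edges inside the clique -/
theorem y3 {s c N T X : ℝ} (hs : 0 < s) (hc : 0 ≤ c) (hcs : 47 * c ≤ 30 * s)
    (hG : 2 * N ^ 2 - s ^ 2 * N ≤ s * T)
    (h1 : X ≤ 9 * (s ^ 3 - T) + 27 * c * N) (h2 : X ≤ 6 * s ^ 3 + 27 * c * N) :
    X ≤ 6 * s ^ 3 + 1968 / 100 * c * s ^ 2 := by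
  have e1 : 30 * s * X ≤ 180 * s ^ 4 + 810 * s * c * N + 141 * c * s ^ 3 - 423 * c * T := by
    nlinarith [mul_le_mul_of_nonneg_left h1 (show (0 : ℝ) ≤ 47 * c by positivity),
      mul_le_mul_of_nonneg_left h2 (show (0 : ℝ) ≤ 30 * s - 47 * c by linarith)]
  have e2 : s * (30 * s * X) ≤
      180 * s ^ 5 + 141 * c * s ^ 4 + 1233 * c * s ^ 2 * N - 846 * c * N ^ 2 := by
    nlinarith [mul_le_mul_of_nonneg_left e1 hs.le, mul_le_mul_of_nonneg_left hG hc]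
  have e3 : 0 ≤ 846 * N ^ 2 - 1233 * s ^ 2 * N + 4494 / 10 * s ^ 4 := by
    nlinarith [sq_nonneg (846 * 2 * N - 1233 * s ^ 2), sq_nonneg (s ^ 2)]
  have e4 : (30 * s ^ 2) * X ≤ (30 * s ^ 2) * (6 * s ^ 3 + 1968 / 100 * c * s ^ 2) := by
    nlinarith [mul_nonneg hc e3]
  exact le_of_mul_le_mul_left e4 (by positivity)

/-! The final inequalities. -/

theorem i1 {a b s : ℝ} (ha : 0 ≤ a) (hs : 0 ≤ s) (hsb : s ≤ b) (hab : a ≤ b) :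
    27 * a * b ^ 2 + 9 * (a ^ 3 - s ^ 3) + 27 * (b - s) * s ^ 2 ≤ 5 * (a + b) ^ 3 := by
  have hb : 0 ≤ b := hs.trans hsb
  nlinarith [mul_nonneg (sq_nonneg (b - 2 * s)) (show (0 : ℝ) ≤ 9 / 4 * b + 9 * s by positivity),
    mul_nonneg (sq_nonneg (b - 2 * a)) (show (0 : ℝ) ≤ 11 / 4 * b - a by linarith)]

theorem i2 {a b s : ℝ} (hs : 0 ≤ s) (hsb : s ≤ b) (hab : b ≤ a) :
    27 * a * b ^ 2 + 9 * (3 * a ^ 2 * b - 3 * a * b ^ 2 + b ^ 3 - s ^ 3) +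
      27 * (b - s) * s ^ 2 ≤ 5 * (a + b) ^ 3 := by
  have hb : 0 ≤ b := hs.trans hsb
  obtain ⟨d, rfl⟩ : ∃ d, a = b + d := ⟨a - b, by ring⟩
  have hd : 0 ≤ d := by linarith
  nlinarith [mul_nonneg (sq_nonneg (b - 2 * s)) (show (0 : ℝ) ≤ 9 / 4 * b + 9 * s by positivity),
    pow_nonneg hb 3, mul_nonneg (pow_nonneg hb 2) hd, mul_nonneg hb (pow_nonneg hd 2),
    pow_nonneg hd 3]

theorem i3 {a b s : ℝ} (ha : 0 ≤ a) (has : a ≤ s) (hsb : 2 * s ≤ b) :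
    27 * a * b ^ 2 + 27 * (s * a ^ 2 - a * s ^ 2) + 27 * (b - s) * s ^ 2 ≤ 5 * (a + b) ^ 3 := by
  obtain ⟨v, rfl⟩ : ∃ v, s = a + v := ⟨s - a, by ring⟩
  obtain ⟨u, rfl⟩ : ∃ u, b = 2 * (a + v) + 2 * u := ⟨b / 2 - (a + v), by ring⟩
  have hv : 0 ≤ v := by linarith
  have hu : 0 ≤ u := by linarith
  have := mul_nonneg ha (mul_nonneg hu hv)
  have := mul_nonneg ha (mul_nonneg hu hu)
  have := mul_nonneg ha (mul_nonneg hv hv)
  have := mul_nonneg hu (mul_nonneg hu hu)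
  have := mul_nonneg hv (mul_nonneg hv hv)
  have := mul_nonneg hu (mul_nonneg hu hv)
  have := mul_nonneg hu (mul_nonneg hv hv)
  have := mul_nonneg ha (mul_nonneg ha hv)
  have := mul_nonneg ha (mul_nonneg ha hu)
  nlinarith

theorem ii1 {a b s : ℝ} (ha : 0 ≤ a) (hs : b ≤ 2 * s) (hsb : s ≤ b) (hab : a ≤ b) :
    27 * a * b ^ 2 + 9 * (a ^ 3 - s ^ 3) + (9 * s ^ 3 + 9 / 8 * s * (3 * (b - s) + s) ^ 2) ≤
      5 * (a + b) ^ 3 := by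
  have hb : 0 ≤ b := ha.trans hab
  nlinarith [mul_nonneg (sq_nonneg (s - b / 2)) (show (0 : ℝ) ≤ 3 * b - 2 * (s - b / 2) by linarith),
    mul_nonneg (sq_nonneg (b - 2 * a)) (show (0 : ℝ) ≤ 11 / 4 * b - a by linarith)]

theorem ii2 {a b s : ℝ} (hs : b ≤ 2 * s) (hsb : s ≤ b) (hab : b ≤ a) :
    27 * a * b ^ 2 + 9 * (3 * a ^ 2 * b - 3 * a * b ^ 2 + b ^ 3 - s ^ 3) +
      (9 * s ^ 3 + 9 / 8 * s * (3 * (b - s) + s) ^ 2) ≤ 5 * (a + b) ^ 3 := by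
  have hb : 0 ≤ b := by linarith
  obtain ⟨d, rfl⟩ : ∃ d, a = b + d := ⟨a - b, by ring⟩
  have hd : 0 ≤ d := by linarith
  nlinarith [mul_nonneg (sq_nonneg (s - b / 2)) (show (0 : ℝ) ≤ 3 * b - 2 * (s - b / 2) by linarith),
    pow_nonneg hb 3, mul_nonneg (pow_nonneg hb 2) hd, mul_nonneg hb (pow_nonneg hd 2),
    pow_nonneg hd 3]

/-- the polynomial which is left for `a ≤ s`, in terms of `u = s - b / 2` and `w = a - b / 2` -/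
noncomputable def Q (b u w : ℝ) : ℝ :=
  9 * b * w ^ 2 + 27 / 4 * b * u ^ 2 + 5 * w ^ 3 - 27 / 2 * u ^ 3 - 27 * u * w ^ 2 + 27 * u ^ 2 * w

theorem Q_eq (a b s : ℝ) : 5 * (a + b) ^ 3 - (27 * a * b ^ 2 + 27 * (s * a ^ 2 - a * s ^ 2) +
    (9 * s ^ 3 + 9 / 8 * s * (3 * (b - s) + s) ^ 2)) = Q b (s - b / 2) (a - b / 2) := by
  unfold Q; ring

theorem Q1 {b u w : ℝ} (hu : 0 ≤ u) (hub : 5 * u ≤ b) (hw : 0 ≤ w) : 0 ≤ Q b u w := by
  unfold Q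
  nlinarith [mul_nonneg (sq_nonneg w) (show (0 : ℝ) ≤ 9 * b - 27 * u by linarith),
    mul_nonneg (sq_nonneg u) (show (0 : ℝ) ≤ 27 / 4 * b - 27 / 2 * u by linarith),
    pow_nonneg hw 3, mul_nonneg (sq_nonneg u) hw]

theorem Q2 {b u v : ℝ} (hu : 0 ≤ u) (hub : 5 * u ≤ b) (hv : 0 ≤ v) (hvb : 8 * v ≤ b) :
    0 ≤ Q b u (-v) := by
  unfold Q
  nlinarith [mul_nonneg (sq_nonneg v) (show (0 : ℝ) ≤ 9 * b - 27 * u - 5 * v by linarith),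
    mul_nonneg (sq_nonneg u) (show (0 : ℝ) ≤ 27 / 4 * b - 27 / 2 * u - 27 * v by linarith)]

theorem Q3 {b u u1 v : ℝ} (hb : 0 ≤ b) (hu1 : u ≤ u1) (hp : 0 ≤ u1 + u) (hvb : b ≤ 8 * v) :
    Q b u1 (-v) ≤ Q b u (-v) := by
  have e : Q b u (-v) - Q b u1 (-v) = (u1 - u) * (-(27 / 4) * b * (u1 + u) +
      27 / 2 * (u1 ^ 2 + u1 * u + u ^ 2) + 27 * v ^ 2 + 27 * v * (u1 + u)) := by
    unfold Q; ring
  have h1 : 0 ≤ -(27 / 4) * b * (u1 + u) +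
      27 / 2 * (u1 ^ 2 + u1 * u + u ^ 2) + 27 * v ^ 2 + 27 * v * (u1 + u) := by
    nlinarith [mul_nonneg (show (0 : ℝ) ≤ 8 * v - b by linarith) hp,
      mul_nonneg (show (0 : ℝ) ≤ 8 * v - b by linarith) (show (0 : ℝ) ≤ 8 * v + b by linarith),
      sq_nonneg (u1 - u), sq_nonneg (6 * (u1 + u) - b), sq_nonneg b]
  have h2 := mul_nonneg (sub_nonneg.2 hu1) h1
  linarith

theorem Q4 {b v : ℝ} (hb : 0 ≤ b) (hv1 : b ≤ 8 * v) (hv2 : 2 * v ≤ b) :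
    0 ≤ Q b (185 / 1000 * b) (-v) := by
  unfold Q
  nlinarith [mul_nonneg (show (0 : ℝ) ≤ b - 2 * v by linarith)
    (show (0 : ℝ) ≤ 5 * v ^ 2 - 1505 / 1000 * v * b + 17 / 100 * b ^ 2 by
      nlinarith [sq_nonneg (10 * v - 1505 / 1000 * b), sq_nonneg b]), pow_nonneg hb 3,
      mul_nonneg (sq_nonneg b) (show (0 : ℝ) ≤ v by linarith)]

theorem Q5 {b v : ℝ} (hb : 0 ≤ b) (hv1 : b ≤ 8 * v) (hv2 : 14 * v ≤ 5 * b) :
    0 ≤ Q b (195 / 1000 * b) (-v) := by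
  unfold Q
  nlinarith [mul_nonneg (show (0 : ℝ) ≤ 5 * b - 14 * v by linarith)
    (sq_nonneg (v - b / 5)), pow_nonneg hb 3,
      mul_nonneg (sq_nonneg b) (show (0 : ℝ) ≤ v by linarith),
      mul_nonneg (sq_nonneg b) (show (0 : ℝ) ≤ 5 * b - 14 * v by linarith),
      mul_nonneg (sq_nonneg v) (show (0 : ℝ) ≤ 5 * b - 14 * v by linarith)]

/-- `a ≤ s`, the first range -/
theorem ii3 {a b s : ℝ} (ha : 0 ≤ a) (hs : b ≤ 2 * s) (hsb : 1000 * s ≤ 685 * b) :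
    27 * a * b ^ 2 + 27 * (s * a ^ 2 - a * s ^ 2) +
      (9 * s ^ 3 + 9 / 8 * s * (3 * (b - s) + s) ^ 2) ≤ 5 * (a + b) ^ 3 := by
  have hb : 0 ≤ b := by nlinarith
  rw [← sub_nonneg, Q_eq]
  rcases le_total 0 (a - b / 2) with h | h
  · exact Q1 (by linarith) (by linarith) h
  · obtain ⟨v, hv⟩ : ∃ v, a - b / 2 = -v := ⟨b / 2 - a, by ring⟩
    rw [hv]
    rcases le_total (8 * v) b with h1 | h1
    · exact Q2 (by linarith) (by linarith) (by linarith) h1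
    · exact (Q4 hb h1 (by linarith)).trans (Q3 hb (by linarith) (by linarith) h1)

/-- `a ≤ s`, the first range, for `a ≥ b / 7` -/
theorem ii3' {a b s : ℝ} (ha : b ≤ 7 * a) (hs : b ≤ 2 * s) (hsb : 1000 * s ≤ 695 * b) :
    27 * a * b ^ 2 + 27 * (s * a ^ 2 - a * s ^ 2) +
      (9 * s ^ 3 + 9 / 8 * s * (3 * (b - s) + s) ^ 2) ≤ 5 * (a + b) ^ 3 := by
  have hb : 0 ≤ b := by nlinarith
  rw [← sub_nonneg, Q_eq]
  rcases le_total 0 (a - b / 2) with h | h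
  · exact Q1 (by linarith) (by linarith) h
  · obtain ⟨v, hv⟩ : ∃ v, a - b / 2 = -v := ⟨b / 2 - a, by ring⟩
    rw [hv]
    rcases le_total (8 * v) b with h1 | h1
    · exact Q2 (by linarith) (by linarith) (by linarith) h1
    · exact (Q5 hb h1 (by linarith)).trans (Q3 hb (by linarith) (by linarith) h1)

/-- `a ≤ s`, the second range, with Turán's bound outside `A` -/
theorem iii3 {a b s : ℝ} (ha : 0 ≤ a) (hs : 685 * b ≤ 1000 * s) (hsb : s ≤ b) :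
    27 * a * b ^ 2 + 27 * (s * a ^ 2 - a * s ^ 2) + 5 * b ^ 3 ≤ 5 * (a + b) ^ 3 := by
  have hb : 0 ≤ b := by nlinarith
  have key : 0 ≤ 5 * a ^ 2 + (15 * b - 27 * s) * a + 27 * s ^ 2 - 12 * b ^ 2 := by
    nlinarith [sq_nonneg (10 * a + (15 * b - 27 * s)),
      mul_nonneg (show (0 : ℝ) ≤ 1000 * s - 685 * b by linarith) (sub_nonneg.2 hsb),
      sq_nonneg b, mul_nonneg hb (sub_nonneg.2 hsb)]
  nlinarith [mul_nonneg ha key]

/-- `a ≤ s`, the second range, with de Caen's bound inside the clique -/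
theorem iii3' {a b s : ℝ} (hb : 0 ≤ b) (ha : b ≤ 7 * a) (hs : 695 * b ≤ 1000 * s) (hsb : s ≤ b) :
    27 * a * b ^ 2 + 27 * (s * a ^ 2 - a * s ^ 2) +
      (6 * s ^ 3 + 1968 / 100 * (b - s) * s ^ 2) ≤ 5 * (a + b) ^ 3 := by
  set a0 : ℝ := b / 7 with ha0
  have key : 0 ≤ 5 * (a ^ 2 + a * a0 + a0 ^ 2) + (15 * b - 27 * s) * (a + a0) +
      27 * s ^ 2 - 12 * b ^ 2 := by
    nlinarith [sq_nonneg (15 / 2 * (a + a0) + (15 * b - 27 * s)), sq_nonneg (a - a0),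
      mul_nonneg (show (0 : ℝ) ≤ 1000 * s - 695 * b by linarith) (sub_nonneg.2 hsb),
      sq_nonneg b, mul_nonneg hb (sub_nonneg.2 hsb)]
  have h1 : 27 * a0 * b ^ 2 + 27 * (s * a0 ^ 2 - a0 * s ^ 2) +
      (6 * s ^ 3 + 1968 / 100 * (b - s) * s ^ 2) ≤ 5 * (a0 + b) ^ 3 := by
    have hs0 : 0 ≤ s := by nlinarith
    rw [ha0]
    nlinarith [mul_nonneg (sq_nonneg (s - 788 / 1000 * b))
      (show (0 : ℝ) ≤ s + 419 / 1000 * b by positivity), pow_nonneg hb 3,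
      mul_nonneg (sq_nonneg b) (sub_nonneg.2 hsb), mul_nonneg (sq_nonneg b) hs0]
  nlinarith [mul_nonneg (show (0 : ℝ) ≤ a - a0 by linarith) key]

end Pool.Agent.K4H68.CL
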