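import Pool.Agent.K4H68.CL.Step

set_option autoImplicit false

open Finset

namespace Pool.Agent.K4H68.CL

variable {V : Type*} [Fintype V] [DecidableEq V]

/-- the levels from `0` to `i` -/
def L (f : V → ℕ) (i : ℕ) : Finset V := univ.filter fun v => f v ≤ i

/-- the level `i` -/
def L' (f : V → ℕ) (i : ℕ) : Finset V := univ.filter fun v => f v = i

theorem L_succ (f : V → ℕ) (i : ℕ) : L f (i + 1) = L' f (i + 1) ∪ L f i := by
  ext v
  simp only [L, L', mem_filter, mem_union, mem_univ, true_and]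
  omega

theorem L_disj (f : V → ℕ) (i : ℕ) : Disjoint (L' f (i + 1)) (L f i) := by
  rw [Finset.disjoint_left]
  intro v h1 h2
  simp only [L, L', mem_filter, mem_univ, true_and] at h1 h2
  omega

theorem level {H : Finset (Finset V)} (h3 : Three H) (hF : Free H) (f : V → ℕ)
    (hI : ∀ e ∈ H, ∀ i ≥ 1, ∃ v ∈ e, f v ≠ i)
    (hL : ∀ a, 1 ≤ f a → ∃ S : Finset V, ∀ y z, y ≠ z → f y < f a → f z < f a →
      (({a, y, z} : Finset V) ∈ H ↔ ¬ (y ∈ S ∧ z ∈ S)))
    (hb : 9 * E H (L f 0) ≤ 5 * ((L f 0).card : ℤ) ^ 3 ∨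
      ∃ i ≥ 1, (L f i).card ≤ 8 * (L' f i).card) :
    54 * H.card ≤ 5 * (Fintype.card V) ^ 3 := by
  classical
  -- the sets `S`
  have hcl : ∃ S : V → Finset V, ∀ a, 1 ≤ f a → ∀ y z, y ≠ z → f y < f a → f z < f a →
      (({a, y, z} : Finset V) ∈ H ↔ ¬ (y ∈ S a ∧ z ∈ S a)) := by
    have : ∀ a, ∃ S : Finset V, 1 ≤ f a → ∀ y z, y ≠ z → f y < f a → f z < f a →
        (({a, y, z} : Finset V) ∈ H ↔ ¬ (y ∈ S ∧ z ∈ S)) := by
      intro a
      by_cases ha : 1 ≤ f a
      · obtain ⟨S, hS⟩ := hL a ha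
        exact ⟨S, fun _ => hS⟩
      · exact ⟨∅, fun h => absurd h ha⟩
    choose S hS using this
    exact ⟨S, hS⟩
  obtain ⟨S, hS⟩ := hcl
  have hE0 : ∀ i ≥ 1, E H (L' f i) = 0 := by
    intro i hi
    refine Finset.sum_eq_zero fun u hu => Finset.sum_eq_zero fun v hv =>
      Finset.sum_eq_zero fun w hw => ?_
    rcases h_zero_or H u v w with h0 | h0
    · exact h0
    exfalso
    obtain ⟨x, hx, hxi⟩ := hI _ (h_eq_one.1 h0) i hi
    simp only [L', mem_filter, mem_univ, true_and] at hu hv hw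
    simp only [mem_insert, mem_singleton] at hx
    rcases hx with rfl | rfl | rfl
    · exact hxi hu
    · exact hxi hv
    · exact hxi hw
  have hC : ∀ i, Clq H (L' f (i + 1)) (L f i) (fun a => S a ∩ L f i) := by
    intro i a ha
    have ha' : f a = i + 1 := by
      simpa only [L', mem_filter, mem_univ, true_and] using ha
    refine ⟨inter_subset_right, ?_⟩
    intro y hy z hz hyz
    have hy' : f y ≤ i := by simpa only [L, mem_filter, mem_univ, true_and] using hy
    have hz' : f z ≤ i := by simpa only [L, mem_filter, mem_univ, true_and] using hz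
    rw [hS a (by omega) y z hyz (by omega) (by omega)]
    simp only [mem_inter, hy, hz, and_true]
  -- from one level to the next
  have hup : ∀ i, 9 * E H (L f i) ≤ 5 * ((L f i).card : ℤ) ^ 3 →
      9 * E H (L f (i + 1)) ≤ 5 * ((L f (i + 1)).card : ℤ) ^ 3 := by
    intro i hi
    rw [L_succ]
    exact step h3 hF (L_disj f i) (hE0 _ (by omega)) (hC i) (Or.inl hi)
  have hup2 : ∀ i j, 9 * E H (L f i) ≤ 5 * ((L f i).card : ℤ) ^ 3 → i ≤ j →
      9 * E H (L f j) ≤ 5 * ((L f j).card : ℤ) ^ 3 := by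
    intro i j hi hij
    induction j, hij using Nat.le_induction with
    | base => exact hi
    | succ j _ ih => exact hup j ih
  -- a level where the bound holds
  have hstart : ∃ i, 9 * E H (L f i) ≤ 5 * ((L f i).card : ℤ) ^ 3 := by
    rcases hb with hb | ⟨i, hi, hc⟩
    · exact ⟨0, hb⟩
    · obtain ⟨j, rfl⟩ : ∃ j, i = j + 1 := ⟨i - 1, by omega⟩
      refine ⟨j + 1, ?_⟩
      have hcard : (L f (j + 1)).card = (L' f (j + 1)).card + (L f j).card := by
        rw [L_succ, Finset.card_union_of_disjoint (L_disj f j)]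
      rw [L_succ]
      refine step h3 hF (L_disj f j) (hE0 _ (by omega)) (hC j) (Or.inr ?_)
      have : (L f j).card ≤ 7 * (L' f (j + 1)).card := by omega
      exact_mod_cast this
  obtain ⟨i, hi⟩ := hstart
  set M := max i (univ.sup f) with hM
  have hfin := hup2 i M hi (le_max_left _ _)
  have huniv : L f M = univ := by
    ext v
    simp only [L, mem_filter, mem_univ, true_and, iff_true]
    exact (Finset.le_sup (mem_univ v)).trans (le_max_right _ _)
  rw [huniv, E_eq h3, Finset.card_univ] at hfin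
  have hH : (H.filter fun e => e ⊆ univ) = H := by
    apply Finset.filter_true_of_mem
    intro e _
    exact Finset.subset_univ e
  rw [hH] at hfin
  have : (54 * H.card : ℤ) ≤ 5 * (Fintype.card V : ℤ) ^ 3 := by linarith
  exact_mod_cast this

end Pool.Agent.K4H68.CL
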