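import Mathlib

set_option autoImplicit false

open Finset

namespace Pool.Agent.K4H68.CL

/-- three times the largest possible gain for `k` vertices, the values lie between `σ` and `b` -/
def F (σ b k : ℤ) : ℤ :=
  if k ≤ σ then 3 * (σ * k ^ 2 - σ ^ 2 * k)
  else if k ≤ b then k ^ 3 - k - σ ^ 3 + σ
  else b ^ 3 - b - σ ^ 3 + σ + 3 * b * k * (k - b)

theorem sq_sub_nonneg_int (x : ℤ) : 0 ≤ x * (x - 1) := by
  rcases le_or_gt x 0 with h | h
  · nlinarith
  · exact mul_nonneg h.le (by linarith)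

theorem F_step {σ b k m : ℤ} (hσ : 0 ≤ σ) (hk : 0 ≤ k) (h1 : σ ≤ m) (h2 : m ≤ b) :
    F σ b k + 3 * ((2 * k + 1) * m - m ^ 2) ≤ F σ b (k + 1) := by
  have hsb : σ ≤ b := h1.trans h2
  have hq : (2 * k + 1) * m - m ^ 2 ≤ k ^ 2 + k := by
    have := sq_sub_nonneg_int (m - k)
    nlinarith
  unfold F
  rcases lt_or_ge k σ with c1 | c1
  · rw [if_pos c1.le, if_pos (by linarith : k + 1 ≤ σ)]
    have : 0 ≤ (m - σ) * (m + σ - (2 * k + 1)) := mul_nonneg (by linarith) (by linarith)
    nlinarith
  · rw [if_neg (by linarith : ¬ k + 1 ≤ σ)]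
    rcases eq_or_lt_of_le c1 with c2 | c2
    · subst c2
      rw [if_pos le_rfl]
      rcases eq_or_lt_of_le hsb with c3 | c3
      · subst c3
        rw [if_neg (by linarith : ¬ σ + 1 ≤ σ)]
        have : m = σ := le_antisymm h2 h1
        subst this
        nlinarith
      · rw [if_pos (by linarith : σ + 1 ≤ b)]
        nlinarith
    · rw [if_neg (by linarith : ¬ k ≤ σ)]
      rcases lt_trichotomy k b with c3 | c3 | c3
      · rw [if_pos c3.le, if_pos (by linarith : k + 1 ≤ b)]
        nlinarith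
      · subst c3
        rw [if_pos le_rfl, if_neg (by linarith : ¬ k + 1 ≤ k)]
        nlinarith
      · rw [if_neg (by linarith : ¬ k ≤ b), if_neg (by linarith : ¬ k + 1 ≤ b)]
        have : 0 ≤ (b - m) * (2 * k + 1 - b - m) := mul_nonneg (by linarith) (by linarith)
        nlinarith

/-- sum over ordered pairs of the maxima -/
def P {ι : Type*} [DecidableEq ι] (S : Finset ι) (m : ι → ℤ) : ℤ :=
  ∑ x ∈ S, ∑ y ∈ S, if x = y then 0 else max (m x) (m y)

theorem P_insert {ι : Type*} [DecidableEq ι] (S : Finset ι) (m : ι → ℤ) (a : ι) (ha : a ∉ S)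
    (hm : ∀ x ∈ S, m x ≤ m a) : P (insert a S) m = P S m + 2 * S.card * m a := by
  unfold P
  rw [Finset.sum_insert ha]
  have e1 : ∑ y ∈ insert a S, (if a = y then 0 else max (m a) (m y)) = S.card * m a := by
    rw [Finset.sum_insert ha, if_pos rfl, zero_add, Finset.sum_congr rfl (g := fun _ => m a)]
    · rw [Finset.sum_const, nsmul_eq_mul]
    · intro y hy
      rw [if_neg (fun e : a = y => ha (e ▸ hy)), max_eq_left (hm y hy)]
  have e2 : ∑ x ∈ S, ∑ y ∈ insert a S, (if x = y then 0 else max (m x) (m y)) =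
      ∑ x ∈ S, (m a + ∑ y ∈ S, if x = y then 0 else max (m x) (m y)) := by
    apply Finset.sum_congr rfl
    intro x hx
    rw [Finset.sum_insert ha, if_neg (fun e : x = a => ha (e ▸ hx)), max_eq_right (hm x hx)]
  rw [e1, e2, Finset.sum_add_distrib, Finset.sum_const, nsmul_eq_mul]
  ring

theorem P_bound {ι : Type*} [DecidableEq ι] {σ b : ℤ} (hσ : 0 ≤ σ) (m : ι → ℤ)
    (h1 : ∀ x, σ ≤ m x) (h2 : ∀ x, m x ≤ b) : ∀ (k : ℕ) (S : Finset ι), S.card = k →
      3 * (P S m + ∑ x ∈ S, (m x - m x ^ 2)) ≤ F σ b k := by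
  intro k
  induction k with
  | zero =>
    intro S hS
    rw [Finset.card_eq_zero] at hS
    subst hS
    simp [P, F, hσ]
  | succ k ih =>
    intro S hS
    have hne : S.Nonempty := by
      rw [← Finset.card_pos]; omega
    obtain ⟨a, haS, hmax⟩ := Finset.exists_max_image S m hne
    have hins : insert a (S.erase a) = S := Finset.insert_erase haS
    have hna : a ∉ S.erase a := Finset.notMem_erase a S
    have hcard : (S.erase a).card = k := by
      rw [Finset.card_erase_of_mem haS, hS]; rfl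
    rw [← hins, P_insert _ m a hna (fun x hx => hmax x (Finset.mem_of_mem_erase hx)),
      Finset.sum_insert hna, hcard]
    have h3 := ih _ hcard
    have h4 := F_step (σ := σ) (b := b) (k := k) (m := m a) hσ (by positivity) (h1 a) (h2 a)
    push_cast
    linarith

end Pool.Agent.K4H68.CL
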