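import Pool.Agent.K4H68.CL.Good
import Pool.Agent.K4H68.CL.Sorted
import Pool.Agent.K4H68.CL.Ineq

set_option autoImplicit false

open Finset

namespace Pool.Agent.K4H68.CL

variable {V : Type*} [DecidableEq V]

/-- the pairs in `B` which are not link pairs of `x ∈ A` are the pairs inside `S x` -/
def Clq (H : Finset (Finset V)) (A B : Finset V) (S : V → Finset V) : Prop :=
  ∀ x ∈ A, S x ⊆ B ∧ ∀ y ∈ B, ∀ z ∈ B, y ≠ z →
    (({x, y, z} : Finset V) ∈ H ↔ ¬ (y ∈ S x ∧ z ∈ S x))

/-- the size of the clique, at least one -/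
def mx (S : V → Finset V) (x : V) : ℤ := max 1 ((S x).card : ℤ)

omit [DecidableEq V] in
theorem one_le_mx (S : V → Finset V) (x : V) : 1 ≤ mx S x := le_max_left _ _

omit [DecidableEq V] in
theorem card_le_mx (S : V → Finset V) (x : V) : ((S x).card : ℤ) ≤ mx S x := le_max_right _ _

omit [DecidableEq V] in
theorem mx_sq (S : V → Finset V) (x : V) :
    mx S x - mx S x ^ 2 = ((S x).card : ℤ) - ((S x).card : ℤ) ^ 2 := by
  unfold mx
  rcases Nat.eq_zero_or_pos (S x).card with h0 | h0
  · rw [h0]; norm_num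
  · have : (1 : ℤ) ≤ ((S x).card : ℤ) := by exact_mod_cast h0
    rw [max_eq_right this]

theorem link_sum {H : Finset (Finset V)} (h3 : Three H) {A B : Finset V} {S : V → Finset V}
    (hS : Clq H A B S) {x : V} (hx : x ∈ A) :
    ∑ y ∈ B, ∑ z ∈ B, h H x y z = (B.card : ℤ) ^ 2 - B.card + (mx S x - mx S x ^ 2) := by
  obtain ⟨hSB, hl⟩ := hS x hx
  have e1 : ∀ y ∈ B, ∀ z ∈ B, h H x y z = 1 - (if y = z then 1 else 0) -
      ((if y ∈ S x then 1 else 0) * (if z ∈ S x then 1 else 0) -
        (if y = z then (if y ∈ S x then 1 else 0) else 0)) := by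
    intro y hy z hz
    by_cases hyz : y = z
    · subst hyz
      have : h H x y y = 0 := by rw [h_rot, h_self h3]
      rw [this]
      by_cases hyS : y ∈ S x <;> simp [hyS]
    · rw [if_neg hyz, if_neg hyz]
      have := hl y hy z hz hyz
      unfold h
      by_cases h1 : y ∈ S x <;> by_cases h2 : z ∈ S x <;> simp [this, h1, h2]
  have e2 : ∑ y ∈ B, ∑ z ∈ B, h H x y z = ∑ y ∈ B, ∑ z ∈ B, ((1 : ℤ) - (if y = z then 1 else 0) -
      ((if y ∈ S x then 1 else 0) * (if z ∈ S x then 1 else 0) -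
        (if y = z then (if y ∈ S x then 1 else 0) else 0))) :=
    sum_congr rfl fun y hy => sum_congr rfl fun z hz => e1 y hy z hz
  have e3 : ∑ y ∈ B, (if y ∈ S x then (1 : ℤ) else 0) = ((S x).card : ℤ) := by
    rw [← Finset.sum_filter, Finset.sum_const, nsmul_eq_mul, mul_one]
    congr 2
    ext t
    rw [mem_filter]
    exact ⟨fun h => h.2, fun h => ⟨hSB h, h⟩⟩
  have e4 : ∑ y ∈ B, ∑ z ∈ B, (if y = z then (1 : ℤ) else 0) = B.card := by
    rw [Finset.sum_congr rfl (g := fun _ => (1 : ℤ))]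
    · simp
    · intro y hy
      rw [Finset.sum_ite_eq, if_pos hy]
  have e5 : ∑ y ∈ B, ∑ z ∈ B, (if y = z then (if y ∈ S x then (1 : ℤ) else 0) else 0) =
      ((S x).card : ℤ) := by
    rw [← e3]
    apply sum_congr rfl
    intro y hy
    rw [Finset.sum_ite_eq, if_pos hy]
  have e6 : ∑ y ∈ B, ∑ z ∈ B, ((if y ∈ S x then (1 : ℤ) else 0) * (if z ∈ S x then 1 else 0)) =
      ((S x).card : ℤ) ^ 2 := by
    rw [← Finset.sum_mul_sum, e3, sq]
  have e7 : ∑ _y ∈ B, ∑ _z ∈ B, (1 : ℤ) = (B.card : ℤ) ^ 2 := by simp [sq]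
  rw [e2]
  simp only [Finset.sum_sub_distrib]
  rw [e4, e5, e6, e7, mx_sq]
  ring

theorem pair_le {H : Finset (Finset V)} (h3 : Three H) (hF : Free H) {A B : Finset V}
    {S : V → Finset V} (hS : Clq H A B S) {x x' : V} (hx : x ∈ A) (hx' : x' ∈ A) :
    ∑ y ∈ B, h H x x' y ≤ if x = x' then 0 else max (mx S x) (mx S x') := by
  split_ifs with hxx
  · subst hxx
    exact (Finset.sum_eq_zero fun y _ => h_self h3 x y).le
  obtain ⟨hSB, hl⟩ := hS x hx
  obtain ⟨hSB', hl'⟩ := hS x' hx'
  set D := B.filter fun y => ({x, x', y} : Finset V) ∈ H with hD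
  have hsum : ∑ y ∈ B, h H x x' y = D.card := by
    rw [hD, Finset.card_filter]
    push_cast
    rfl
  rw [hsum]
  have hcov : ∀ y ∈ D, ∀ z ∈ D, y ≠ z → (y ∈ S x ∧ z ∈ S x) ∨ (y ∈ S x' ∧ z ∈ S x') := by
    intro y hy z hz hyz
    rw [hD, mem_filter] at hy hz
    by_contra hcon
    rw [not_or] at hcon
    have h1 := (hl y hy.1 z hz.1 hyz).2 hcon.1
    have h2 := (hl' y hy.1 z hz.1 hyz).2 hcon.2
    exact no_four h3 hF hy.2 hz.2 h1 h2
  by_cases c1 : D ⊆ S x
  · exact (le_trans (by exact_mod_cast Finset.card_le_card c1) (card_le_mx S x)).trans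
      (le_max_left _ _)
  by_cases c2 : D ⊆ S x'
  · exact (le_trans (by exact_mod_cast Finset.card_le_card c2) (card_le_mx S x')).trans
      (le_max_right _ _)
  obtain ⟨y0, hy0, hy1⟩ := Finset.not_subset.1 c1
  obtain ⟨z0, hz0, hz1⟩ := Finset.not_subset.1 c2
  have hyz0 : y0 = z0 := by
    by_contra hne
    rcases hcov y0 hy0 z0 hz0 hne with h | h
    · exact hy1 h.1
    · exact hz1 h.2
  have hone : D ⊆ {y0} := by
    intro w hw
    rw [mem_singleton]
    by_contra hne
    rcases hcov w hw y0 hy0 hne with h | h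
    · exact hy1 h.2
    · rw [hyz0] at h; exact hz1 h.2
  have hcard : (D.card : ℤ) ≤ 1 := by
    have := Finset.card_le_card hone
    rw [Finset.card_singleton] at this
    exact_mod_cast this
  exact hcard.trans ((one_le_mx S x).trans (le_max_left _ _))

theorem outer_sum {H : Finset (Finset V)} (h3 : Three H) (hF : Free H) {A B : Finset V}
    {S : V → Finset V} (hS : Clq H A B S) :
    ∑ x ∈ A, ∑ x' ∈ A, ∑ y ∈ B, h H x x' y ≤ P A (mx S) :=
  sum_le_sum fun _ hx => sum_le_sum fun _ hx' => pair_le h3 hF hS hx hx'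

/-- the edges inside `B` -/
theorem inner {H : Finset (Finset V)} (h3 : Three H) (hF : Free H) {A B : Finset V}
    {S : V → Finset V} (hS : Clq H A B S) {x : V} (hx : x ∈ A) (hB : B.Nonempty) :
    ∃ n t : ℤ, n ≤ mx S x ^ 2 ∧ 2 * n ^ 2 - mx S x ^ 2 * n ≤ mx S x * t ∧
      E H B ≤ mx S x ^ 3 - t + 3 * (B.card - mx S x) * n ∧
      3 * E H B ≤ 2 * mx S x ^ 3 + 9 * (B.card - mx S x) * n ∧ mx S x ≤ B.card := by
  obtain ⟨hSB, hl⟩ := hS x hx
  have hB1 : (1 : ℤ) ≤ B.card := by exact_mod_cast hB.card_pos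
  set C := B \ S x with hC
  have hCB : C ⊆ B := sdiff_subset
  have hdis : Disjoint (S x) C := disjoint_sdiff
  have hun : S x ∪ C = B := union_sdiff_of_subset hSB
  have hcc : (C.card : ℤ) = B.card - (S x).card := by
    rw [hC, Finset.card_sdiff_of_subset hSB, Nat.cast_sub (Finset.card_le_card hSB)]
  have hzero : ∀ u ∈ B, ∀ v ∈ C, ∀ w ∈ C, h H u v w = 0 := by
    intro u hu v hv w hw
    rcases h_zero_or H u v w with h0 | h0
    · exact h0
    exfalso
    have he := h_eq_one.1 h0
    obtain ⟨d1, d2, d3⟩ := distinct h3 he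
    have hv' := (mem_sdiff.1 hv).2
    have hw' := (mem_sdiff.1 hw).2
    have k1 := (hl u hu v (hCB hv) d1).2 (fun hh => hv' hh.2)
    have k2 := (hl u hu w (hCB hw) d2).2 (fun hh => hw' hh.2)
    have k3 := (hl v (hCB hv) w (hCB hw) d3).2 (fun hh => hv' hh.1)
    exact no_four h3 hF k1 k2 k3 he
  have hE : E H B = E H (S x) + 3 * ∑ c ∈ C, N H (S x) c := by
    rw [← hun, E_union hdis]
    have z1 : ∑ x' ∈ S x, ∑ y ∈ C, ∑ z ∈ C, h H x' y z = 0 :=
      Finset.sum_eq_zero fun u hu => Finset.sum_eq_zero fun v hv => Finset.sum_eq_zero fun w hw =>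
        hzero u (hSB hu) v hv w hw
    have z2 : E H C = 0 :=
      Finset.sum_eq_zero fun u hu => Finset.sum_eq_zero fun v hv => Finset.sum_eq_zero fun w hw =>
        hzero u (hCB hu) v hv w hw
    have z3 : ∑ u ∈ S x, ∑ v ∈ S x, ∑ c ∈ C, h H u v c = ∑ c ∈ C, N H (S x) c := by
      unfold N
      rw [Finset.sum_congr rfl (g := fun u => ∑ c ∈ C, ∑ v ∈ S x, h H u v c)
        (fun u _ => Finset.sum_comm), Finset.sum_comm]
      refine sum_congr rfl fun c _ => sum_congr rfl fun u _ => sum_congr rfl fun v _ => ?_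
      rw [h_rot H c u v]
    rw [z1, z2, z3]
    ring
  rcases Nat.eq_zero_or_pos (S x).card with hs0 | hs0
  · have hSe : S x = ∅ := Finset.card_eq_zero.1 hs0
    have hm : mx S x = 1 := by
      unfold mx; rw [hs0]; norm_num
    have hE0 : E H B = 0 := by
      rw [hE, hSe]
      simp [E, N]
    exact ⟨0, 0, by positivity, by simp, by rw [hE0, hm]; norm_num, by rw [hE0, hm]; norm_num,
      by rw [hm]; exact hB1⟩
  · have hm : mx S x = (S x).card := by
      unfold mx
      rw [max_eq_right]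
      exact_mod_cast hs0
    have hsB : ((S x).card : ℤ) ≤ B.card := by exact_mod_cast Finset.card_le_card hSB
    rcases C.eq_empty_or_nonempty with hCe | hCn
    · have hE1 : E H B = E H (S x) := by
        rw [hE, hCe]; simp
      have h1 := E_le H (S x)
      have h2 := de_caen h3 hF (S x)
      refine ⟨0, 0, by positivity, by simp, ?_, ?_, ?_⟩
      · rw [hE1, hm]; linarith
      · rw [hE1, hm]; linarith
      · rw [hm]; exact hsB
    · obtain ⟨c, hc, hmax⟩ := Finset.exists_max_image C (fun c => N H (S x) c) hCn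
      have hsum : ∑ c' ∈ C, N H (S x) c' ≤ (B.card - (S x).card) * N H (S x) c := by
        rw [← hcc]
        calc ∑ c' ∈ C, N H (S x) c' ≤ ∑ _c' ∈ C, N H (S x) c := sum_le_sum hmax
          _ = C.card * N H (S x) c := by rw [Finset.sum_const, nsmul_eq_mul]
      have h1 := E_T h3 hF (S x) c
      have h2 := de_caen h3 hF (S x)
      refine ⟨N H (S x) c, T H (S x) c, ?_, ?_, ?_, ?_, ?_⟩
      · rw [hm]; exact N_le _ _ _
      · rw [hm]; exact N_T _ _ _
      · rw [hE, hm]; linarith
      · rw [hE, hm]; linarith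
      · rw [hm]; exact hsB

/-- the final inequality over the reals -/
theorem final {a b s n t X EB : ℝ} (ha : 0 < a) (hs : 1 ≤ s) (hsb : s ≤ b)
    (hX1 : s ≤ a → a ≤ b → X ≤ 9 * (a ^ 3 - s ^ 3))
    (hX2 : b ≤ a → X ≤ 9 * (3 * a ^ 2 * b - 3 * a * b ^ 2 + b ^ 3 - s ^ 3))
    (hX3 : a ≤ s → X ≤ 27 * (s * a ^ 2 - a * s ^ 2))
    (hn : n ≤ s ^ 2) (hG : 2 * n ^ 2 - s ^ 2 * n ≤ s * t)
    (hE1 : EB ≤ 9 * (s ^ 3 - t) + 27 * (b - s) * n) (hE2 : EB ≤ 6 * s ^ 3 + 27 * (b - s) * n)
    (hPQ : EB ≤ 5 * b ^ 3 ∨ b ≤ 7 * a) :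
    27 * a * b ^ 2 + X + EB ≤ 5 * (a + b) ^ 3 := by
  have hs0 : 0 < s := by linarith
  rcases le_total (2 * s) b with c1 | c1
  · have hY := y1 hs0 (show s ≤ b - s by linarith) hn hG
    rcases le_total a s with c2 | c2
    · have := i3 ha.le c2 c1
      have := hX3 c2
      linarith
    · rcases le_total a b with c3 | c3
      · have := i1 ha.le hs0.le hsb c3
        have := hX1 c2 c3
        linarith
      · have := i2 hs0.le hsb c3
        have := hX2 c3
        linarith
  · have hY := y2 (c := b - s) hs0 hG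
    rcases le_total a s with c2 | c2
    · have hX := hX3 c2
      rcases hPQ with hP | hP
      · rcases le_total (1000 * s) (685 * b) with c4 | c4
        · have := ii3 ha.le c1 c4
          linarith
        · have := iii3 ha.le c4 hsb
          linarith
      · rcases le_total (1000 * s) (695 * b) with c4 | c4
        · have := ii3' hP c1 c4
          linarith
        · have := iii3' (by linarith) hP c4 hsb
          have := y3 hs0 (sub_nonneg.2 hsb) (by linarith) hG hE1 hE2
          linarith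
    · rcases le_total a b with c3 | c3
      · have := ii1 ha.le c1 hsb c3
        have := hX1 c2 c3
        linarith
      · have := ii2 c1 hsb c3
        have := hX2 c3
        linarith

/-- one step -/
theorem step {H : Finset (Finset V)} (h3 : Three H) (hF : Free H) {A B : Finset V}
    (hAB : Disjoint A B) (hA : E H A = 0) {S : V → Finset V} (hS : Clq H A B S)
    (hPQ : 9 * E H B ≤ 5 * (B.card : ℤ) ^ 3 ∨ (B.card : ℤ) ≤ 7 * A.card) :
    9 * E H (A ∪ B) ≤ 5 * ((A ∪ B).card : ℤ) ^ 3 := by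
  rw [Finset.card_union_of_disjoint hAB]
  push_cast
  rcases A.eq_empty_or_nonempty with rfl | hAn
  · simp only [Finset.empty_union, Finset.card_empty, Nat.cast_zero, zero_add]
    rcases hPQ with hP | hP
    · exact hP
    · have : B.card = 0 := by
        have : (B.card : ℤ) ≤ 0 := by simpa using hP
        exact_mod_cast le_antisymm this (by positivity)
      rw [Finset.card_eq_zero] at this
      subst this
      simp [E]
  rcases B.eq_empty_or_nonempty with rfl | hBn
  · rw [Finset.union_empty, hA]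
    positivity
  obtain ⟨x, hx, hmin⟩ := Finset.exists_min_image A (mx S) hAn
  obtain ⟨n, t, g1, g2, g3, g4, g5⟩ := inner h3 hF hS hx hBn
  set σ := mx S x with hσ
  have hσ1 : 1 ≤ σ := one_le_mx S x
  -- a version of `mx` that lies between the bounds everywhere
  set m : V → ℤ := fun v => if v ∈ A then mx S v else σ with hm
  have hm1 : ∀ v, σ ≤ m v := by
    intro v
    simp only [hm]
    split_ifs with hv
    · exact hmin v hv
    · exact le_rfl
  have hm2 : ∀ v, m v ≤ B.card := by
    intro v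
    simp only [hm]
    split_ifs with hv
    · apply max_le
      · exact_mod_cast hBn.card_pos
      · exact_mod_cast Finset.card_le_card (hS v hv).1
    · exact g5
  have hPb := P_bound (σ := σ) (b := B.card) (by linarith) m hm1 hm2 A.card A rfl
  have hPm : P A m = P A (mx S) := by
    unfold P
    refine sum_congr rfl fun u hu => sum_congr rfl fun v hv => ?_
    simp only [hm, if_pos hu, if_pos hv]
  have hsm : ∑ v ∈ A, (m v - m v ^ 2) = ∑ v ∈ A, (mx S v - mx S v ^ 2) := by
    refine sum_congr rfl fun u hu => ?_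
    simp only [hm, if_pos hu]
  rw [hPm, hsm] at hPb
  have hlink : ∑ x ∈ A, ∑ y ∈ B, ∑ z ∈ B, h H x y z =
      A.card * ((B.card : ℤ) ^ 2 - B.card) + ∑ v ∈ A, (mx S v - mx S v ^ 2) := by
    rw [Finset.sum_congr rfl (fun x hx => link_sum h3 hS hx), Finset.sum_add_distrib,
      Finset.sum_const, nsmul_eq_mul]
  have hout := outer_sum h3 hF hS
  have hE := E_union (H := H) hAB
  rw [hA, hlink] at hE
  -- the real numbers
  set a : ℤ := (A.card : ℤ) with ha
  set b : ℤ := (B.card : ℤ) with hb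
  have ha1 : 1 ≤ a := by rw [ha]; exact_mod_cast hAn.card_pos
  have hb1 : 1 ≤ b := by rw [hb]; exact_mod_cast hBn.card_pos
  have hmain : 9 * E H (A ∪ B) ≤ 27 * a * b ^ 2 + (9 * F σ b a - 27 * a * b) + 9 * E H B := by
    rw [hE]
    nlinarith
  have key : (27 : ℝ) * a * b ^ 2 + (9 * (F σ b a : ℤ) - 27 * a * b : ℝ) + (9 * (E H B : ℤ) : ℝ) ≤
      5 * ((a : ℝ) + b) ^ 3 := by
    apply final (s := (σ : ℝ)) (n := (n : ℝ)) (t := (t : ℝ))
    · exact_mod_cast (by linarith : (0 : ℤ) < a)
    · exact_mod_cast hσ1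
    · exact_mod_cast g5
    · intro h1 h2
      have h1' : σ ≤ a := by exact_mod_cast h1
      have h2' : a ≤ b := by exact_mod_cast h2
      have : 9 * F σ b a - 27 * a * b ≤ 9 * (a ^ 3 - σ ^ 3) := by
        unfold F
        rcases eq_or_lt_of_le h1' with e | e
        · rw [if_pos e.ge, ← e]; nlinarith [mul_pos (lt_of_lt_of_le one_pos hσ1) (lt_of_lt_of_le one_pos hb1)]
        · rw [if_neg (not_le.2 e), if_pos h2']
          nlinarith [mul_pos (lt_of_lt_of_le one_pos ha1) (lt_of_lt_of_le one_pos hb1)]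
      exact_mod_cast this
    · intro h1
      have h1' : b ≤ a := by exact_mod_cast h1
      have : 9 * F σ b a - 27 * a * b ≤
          9 * (3 * a ^ 2 * b - 3 * a * b ^ 2 + b ^ 3 - σ ^ 3) := by
        unfold F
        rcases eq_or_lt_of_le h1' with e | e
        · rw [← e]
          rcases eq_or_lt_of_le g5 with e2 | e2
          · rw [if_pos e2.ge, e2]; nlinarith [mul_pos (lt_of_lt_of_le one_pos hb1) (lt_of_lt_of_le one_pos hb1)]
          · rw [if_neg (not_le.2 e2), if_pos le_rfl]
            nlinarith [mul_pos (lt_of_lt_of_le one_pos hb1) (lt_of_lt_of_le one_pos hb1)]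
        · rw [if_neg (by linarith), if_neg (not_le.2 e)]
          nlinarith [mul_pos (lt_of_lt_of_le one_pos ha1) (lt_of_lt_of_le one_pos hb1)]
      exact_mod_cast this
    · intro h1
      have h1' : a ≤ σ := by exact_mod_cast h1
      have : 9 * F σ b a - 27 * a * b ≤ 27 * (σ * a ^ 2 - a * σ ^ 2) := by
        unfold F
        rw [if_pos h1']
        nlinarith [mul_pos (lt_of_lt_of_le one_pos ha1) (lt_of_lt_of_le one_pos hb1)]
      exact_mod_cast this
    · exact_mod_cast g1
    · exact_mod_cast g2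
    · have : 9 * E H B ≤ 9 * (σ ^ 3 - t) + 27 * (b - σ) * n := by linarith
      exact_mod_cast this
    · have : 9 * E H B ≤ 6 * σ ^ 3 + 27 * (b - σ) * n := by linarith
      exact_mod_cast this
    · rcases hPQ with hP | hP
      · left; exact_mod_cast hP
      · right; exact_mod_cast hP
  have key' : 27 * a * b ^ 2 + (9 * F σ b a - 27 * a * b) + 9 * E H B ≤ 5 * (a + b) ^ 3 := by
    exact_mod_cast key
  linarith

end Pool.Agent.K4H68.CL
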