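import Mathlib

set_option autoImplicit false

open Finset

namespace Pool.Agent.K4H68.CL

variable {V : Type*} [DecidableEq V]

/-- a set of triples -/
def Three (H : Finset (Finset V)) : Prop := ∀ e ∈ H, e.card = 3

/-- no four vertices span four edges -/
def Free (H : Finset (Finset V)) : Prop :=
  ∀ S : Finset V, S.card = 4 → ∃ e ⊆ S, e.card = 3 ∧ e ∉ H

/-- the indicator function of the edges -/
def h (H : Finset (Finset V)) (u v w : V) : ℤ := if ({u, v, w} : Finset V) ∈ H then 1 else 0

theorem h_nonneg (H : Finset (Finset V)) (u v w : V) : 0 ≤ h H u v w := by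
  unfold h; split_ifs <;> norm_num

theorem h_le_one (H : Finset (Finset V)) (u v w : V) : h H u v w ≤ 1 := by
  unfold h; split_ifs <;> norm_num

theorem h_zero_or (H : Finset (Finset V)) (u v w : V) : h H u v w = 0 ∨ h H u v w = 1 := by
  unfold h; split_ifs <;> simp

theorem h_eq_one {H : Finset (Finset V)} {u v w : V} :
    h H u v w = 1 ↔ ({u, v, w} : Finset V) ∈ H := by
  unfold h; split_ifs with hh <;> simp [hh]

theorem h_comm (H : Finset (Finset V)) (u v w : V) : h H u v w = h H v u w := by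
  unfold h; rw [Finset.insert_comm]

theorem h_swap (H : Finset (Finset V)) (u v w : V) : h H u v w = h H u w v := by
  unfold h; rw [Finset.pair_comm v w]

theorem h_rot (H : Finset (Finset V)) (u v w : V) : h H u v w = h H v w u := by
  rw [h_comm, h_swap]

theorem distinct {H : Finset (Finset V)} (h3 : Three H) {u v w : V}
    (hh : ({u, v, w} : Finset V) ∈ H) : u ≠ v ∧ u ≠ w ∧ v ≠ w := by
  have hc := h3 _ hh
  refine ⟨?_, ?_, ?_⟩
  · rintro rfl
    rw [Finset.insert_eq_of_mem (by simp)] at hc
    have := Finset.card_le_two (a := u) (b := w)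
    omega
  · rintro rfl
    have : ({u, v, u} : Finset V) = {v, u} := by ext x; simp
    rw [this] at hc
    have := Finset.card_le_two (a := v) (b := u)
    omega
  · rintro rfl
    have : ({u, v, v} : Finset V) = {u, v} := by ext x; simp
    rw [this] at hc
    have := Finset.card_le_two (a := u) (b := v)
    omega

theorem h_self {H : Finset (Finset V)} (h3 : Three H) (u w : V) : h H u u w = 0 := by
  rcases h_zero_or H u u w with hh | hh
  · exact hh
  · exact absurd rfl (distinct h3 (h_eq_one.1 hh)).1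

/-- no complete quadruple -/
theorem no_four {H : Finset (Finset V)} (h3 : Three H) (hF : Free H) {u v w z : V}
    (h1 : ({u, v, w} : Finset V) ∈ H) (h2 : ({u, v, z} : Finset V) ∈ H)
    (h4 : ({u, w, z} : Finset V) ∈ H) (h5 : ({v, w, z} : Finset V) ∈ H) : False := by
  obtain ⟨a1, a2, a3⟩ := distinct h3 h1
  obtain ⟨_, b2, b3⟩ := distinct h3 h2
  obtain ⟨_, _, c3⟩ := distinct h3 h4
  have hc4 : ({u, v, w, z} : Finset V).card = 4 := by
    rw [Finset.card_insert_of_notMem, Finset.card_insert_of_notMem, Finset.card_pair c3]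
    · simp only [mem_insert, mem_singleton, not_or]; exact ⟨a3, b3⟩
    · simp only [mem_insert, mem_singleton, not_or]; exact ⟨a1, a2, b2⟩
  obtain ⟨e, he, hec, heH⟩ := hF _ hc4
  have h6 : (({u, v, w, z} : Finset V) \ e).card = 1 := by
    rw [Finset.card_sdiff_of_subset he, hc4, hec]
  obtain ⟨x, hx⟩ := Finset.card_eq_one.1 h6
  have hxm : x ∈ ({u, v, w, z} : Finset V) \ e := by rw [hx]; exact mem_singleton_self _
  have hee : e = ({u, v, w, z} : Finset V).erase x := by
    ext t
    rw [mem_erase]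
    constructor
    · intro ht
      refine ⟨?_, he ht⟩
      rintro rfl
      exact (mem_sdiff.1 hxm).2 ht
    · rintro ⟨ht1, ht2⟩
      by_contra ht
      have : t ∈ ({u, v, w, z} : Finset V) \ e := mem_sdiff.2 ⟨ht2, ht⟩
      rw [hx] at this
      exact ht1 (mem_singleton.1 this)
  have hxi := (mem_sdiff.1 hxm).1
  simp only [mem_insert, mem_singleton] at hxi
  apply heH
  rw [hee]
  rcases hxi with rfl | rfl | rfl | rfl
  · rw [Finset.erase_insert]
    · exact h5
    · simp only [mem_insert, mem_singleton, not_or]; exact ⟨a1, a2, b2⟩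
  · rw [Finset.insert_comm, Finset.erase_insert]
    · exact h4
    · simp only [mem_insert, mem_singleton, not_or]; exact ⟨a1.symm, a3, b3⟩
  · have : ({u, v, x, z} : Finset V) = {x, u, v, z} := by ext t; simp; tauto
    rw [this, Finset.erase_insert]
    · exact h2
    · simp only [mem_insert, mem_singleton, not_or]; exact ⟨a2.symm, a3.symm, c3⟩
  · have : ({u, v, w, x} : Finset V) = {x, u, v, w} := by ext t; simp; tauto
    rw [this, Finset.erase_insert]
    · exact h1
    · simp only [mem_insert, mem_singleton, not_or]; exact ⟨b2.symm, b3.symm, c3.symm⟩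

/-- the number of ordered edges inside `U` -/
def E (H : Finset (Finset V)) (U : Finset V) : ℤ := ∑ u ∈ U, ∑ v ∈ U, ∑ w ∈ U, h H u v w

theorem E_eq {H : Finset (Finset V)} (h3 : Three H) (U : Finset V) :
    E H U = 6 * ((H.filter fun e => e ⊆ U).card : ℤ) := by
  classical
  set T : Finset (V × V × V) :=
    (U ×ˢ (U ×ˢ U)).filter fun t => ({t.1, t.2.1, t.2.2} : Finset V) ∈ H with hT
  have e : E H U = (T.card : ℤ) := by
    rw [hT, Finset.card_filter, Finset.sum_product]
    push_cast
    unfold E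
    refine sum_congr rfl fun a _ => ?_
    rw [Finset.sum_product]
    rfl
  have hfw := card_eq_sum_card_fiberwise (s := T)
    (f := fun t : V × V × V => ({t.1, t.2.1, t.2.2} : Finset V))
    (t := H.filter fun e => e ⊆ U) (by
      intro t ht
      have ht' := mem_coe.1 ht
      rw [hT, mem_filter, mem_product, mem_product] at ht'
      rw [mem_coe, mem_filter]
      refine ⟨ht'.2, ?_⟩
      intro x hx
      simp only [mem_insert, mem_singleton] at hx
      rcases hx with rfl | rfl | rfl
      · exact ht'.1.1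
      · exact ht'.1.2.1
      · exact ht'.1.2.2)
  have h6 : ∀ s ∈ H.filter (fun e => e ⊆ U),
      (T.filter fun t : V × V × V => ({t.1, t.2.1, t.2.2} : Finset V) = s).card = 6 := by
    intro s hs
    rw [mem_filter] at hs
    obtain ⟨x, y, z, hxy, hxz, hyz, rfl⟩ := Finset.card_eq_three.mp (h3 s hs.1)
    have h6 : ({(x, y, z), (x, z, y), (y, x, z), (y, z, x), (z, x, y), (z, y, x)} :
        Finset (V × V × V)).card = 6 := by
      rw [card_insert_of_notMem, card_insert_of_notMem, card_insert_of_notMem,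
        card_insert_of_notMem, card_insert_of_notMem, card_singleton] <;>
      simp [hxy, hxz, hyz, hxy.symm, hxz.symm, hyz.symm]
    rw [← h6]
    congr 1
    ext ⟨u, v, w⟩
    have hxU : x ∈ U := hs.2 (by simp)
    have hyU : y ∈ U := hs.2 (by simp)
    have hzU : z ∈ U := hs.2 (by simp)
    constructor
    · intro ht
      rw [mem_filter, hT, mem_filter] at ht
      obtain ⟨⟨_, htH⟩, hte⟩ := ht
      simp only at htH hte
      obtain ⟨d1, d2, d3⟩ := distinct h3 htH
      have hu : u ∈ ({x, y, z} : Finset V) := by rw [← hte]; simp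
      have hv : v ∈ ({x, y, z} : Finset V) := by rw [← hte]; simp
      have hw : w ∈ ({x, y, z} : Finset V) := by rw [← hte]; simp
      simp only [mem_insert, mem_singleton] at hu hv hw ⊢
      rcases hu with rfl | rfl | rfl <;> rcases hv with rfl | rfl | rfl <;>
        rcases hw with rfl | rfl | rfl <;> simp_all
    · have key : ∀ u v w : V, ({u, v, w} : Finset V) = {x, y, z} →
          (u, v, w) ∈ T.filter
            (fun t : V × V × V => ({t.1, t.2.1, t.2.2} : Finset V) = {x, y, z}) := by
        intro u v w hh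
        have hm : ({u, v, w} : Finset V) ∈ H := by rw [hh]; exact hs.1
        have hsub : ({u, v, w} : Finset V) ⊆ U := by rw [hh]; exact hs.2
        rw [mem_filter, hT, mem_filter, mem_product, mem_product]
        exact ⟨⟨⟨hsub (by simp), hsub (by simp), hsub (by simp)⟩, hm⟩, hh⟩
      intro ht
      simp only [mem_insert, mem_singleton, Prod.mk.injEq] at ht
      rcases ht with ⟨rfl, rfl, rfl⟩ | ⟨rfl, rfl, rfl⟩ | ⟨rfl, rfl, rfl⟩ | ⟨rfl, rfl, rfl⟩ |
        ⟨rfl, rfl, rfl⟩ | ⟨rfl, rfl, rfl⟩
      · exact key _ _ _ rfl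
      · exact key _ _ _ (by rw [pair_comm])
      · exact key _ _ _ (insert_comm _ _ _)
      · exact key _ _ _ (by ext t; simp; tauto)
      · exact key _ _ _ (by ext t; simp; tauto)
      · exact key _ _ _ (by ext t; simp; tauto)
  rw [e, hfw, Finset.sum_congr rfl h6, Finset.sum_const, smul_eq_mul]
  push_cast
  ring

/-- splitting the sum along a partition into two classes -/
theorem E_union {H : Finset (Finset V)} {A B : Finset V} (hAB : Disjoint A B) :
    E H (A ∪ B) = E H A + 3 * ∑ x ∈ A, ∑ x' ∈ A, ∑ y ∈ B, h H x x' y +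
      3 * ∑ x ∈ A, ∑ y ∈ B, ∑ z ∈ B, h H x y z + E H B := by
  have e1 : ∑ x ∈ A, ∑ y ∈ B, ∑ x' ∈ A, h H x y x' = ∑ x ∈ A, ∑ x' ∈ A, ∑ y ∈ B, h H x x' y := by
    refine sum_congr rfl fun x _ => ?_
    rw [Finset.sum_comm]
    refine sum_congr rfl fun x' _ => sum_congr rfl fun y _ => h_swap _ _ _ _
  have e2 : ∑ y ∈ B, ∑ x ∈ A, ∑ x' ∈ A, h H y x x' = ∑ x ∈ A, ∑ x' ∈ A, ∑ y ∈ B, h H x x' y := by
    rw [Finset.sum_comm]
    refine sum_congr rfl fun x _ => ?_
    rw [Finset.sum_comm]
    refine sum_congr rfl fun x' _ => sum_congr rfl fun y _ => h_rot _ _ _ _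
  have e3 : ∑ y ∈ B, ∑ x ∈ A, ∑ z ∈ B, h H y x z = ∑ x ∈ A, ∑ y ∈ B, ∑ z ∈ B, h H x y z := by
    rw [Finset.sum_comm]
    refine sum_congr rfl fun x _ => sum_congr rfl fun y _ => sum_congr rfl fun z _ => ?_
    exact h_comm _ _ _ _
  have e4 : ∑ y ∈ B, ∑ z ∈ B, ∑ x ∈ A, h H y z x = ∑ x ∈ A, ∑ y ∈ B, ∑ z ∈ B, h H x y z := by
    have : ∀ y ∈ B, ∑ z ∈ B, ∑ x ∈ A, h H y z x = ∑ x ∈ A, ∑ z ∈ B, h H x y z := by
      intro y _
      rw [Finset.sum_comm]
      refine sum_congr rfl fun x _ => sum_congr rfl fun z _ => ?_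
      rw [h_rot, h_rot]
    rw [sum_congr rfl this, Finset.sum_comm]
  unfold E
  simp only [Finset.sum_union hAB, Finset.sum_add_distrib]
  rw [e1, e2, e3, e4]
  ring

end Pool.Agent.K4H68.CL
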