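import Pool.Agent.K4H68.CL.Sum

set_option autoImplicit false

open Finset

namespace Pool.Agent.K4H68.CL

/-- weights of the three classes; the sum over a triple determines its type -/
def wt {t : ℕ} (v : Fin 3 × Fin t) : ℕ := if v.1 = 0 then 1 else if v.1 = 1 then 4 else 16

/-- the good types -/
def good (n : ℕ) : Bool := n == 21 || n == 6 || n == 24 || n == 33

/-- Turán's construction -/
def TH (t : ℕ) : Finset (Finset (Fin 3 × Fin t)) :=
  (powersetCard 3 univ).filter fun e => good (∑ v ∈ e, wt v) = true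

theorem wt_cases {t : ℕ} (v : Fin 3 × Fin t) : wt v = 1 ∨ wt v = 4 ∨ wt v = 16 := by
  unfold wt; split_ifs <;> simp

theorem TH_three (t : ℕ) : Three (TH t) := by
  intro e he
  rw [TH, mem_filter, mem_powersetCard] at he
  exact he.1.2

theorem mem_TH {t : ℕ} {u v w : Fin 3 × Fin t} (h1 : u ≠ v) (h2 : u ≠ w) (h3 : v ≠ w) :
    ({u, v, w} : Finset (Fin 3 × Fin t)) ∈ TH t ↔ good (wt u + wt v + wt w) = true := by
  rw [TH, mem_filter, mem_powersetCard, Finset.sum_insert (by simp [h1, h2]),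
    Finset.sum_insert (by simp [h3]), Finset.sum_singleton, ← add_assoc]
  have : ({u, v, w} : Finset (Fin 3 × Fin t)).card = 3 :=
    Finset.card_eq_three.2 ⟨u, v, w, h1, h2, h3, rfl⟩
  simp [this]

theorem TH_free (t : ℕ) : Free (TH t) := by
  intro S hS
  obtain ⟨a, b, c, d, hab, hac, had, hbc, hbd, hcd, rfl⟩ : ∃ a b c d, a ≠ b ∧ a ≠ c ∧ a ≠ d ∧
      b ≠ c ∧ b ≠ d ∧ c ≠ d ∧ S = {a, b, c, d} := by
    obtain ⟨a, T, haT, rfl, hT⟩ := Finset.card_eq_succ.1 hS
    obtain ⟨b, c, d, hbc, hbd, hcd, rfl⟩ := Finset.card_eq_three.1 hT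
    simp only [mem_insert, mem_singleton, not_or] at haT
    exact ⟨a, b, c, d, haT.1, haT.2.1, haT.2.2, hbc, hbd, hcd, rfl⟩
  by_contra hcon
  push Not at hcon
  have h1 := hcon {a, b, c} (by intro x; simp; tauto)
    (Finset.card_eq_three.2 ⟨a, b, c, hab, hac, hbc, rfl⟩)
  have h2 := hcon {a, b, d} (by intro x; simp; tauto)
    (Finset.card_eq_three.2 ⟨a, b, d, hab, had, hbd, rfl⟩)
  have h3 := hcon {a, c, d} (by intro x; simp; tauto)
    (Finset.card_eq_three.2 ⟨a, c, d, hac, had, hcd, rfl⟩)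
  have h4 := hcon {b, c, d} (by intro x; simp; tauto)
    (Finset.card_eq_three.2 ⟨b, c, d, hbc, hbd, hcd, rfl⟩)
  rw [mem_TH hab hac hbc] at h1
  rw [mem_TH hab had hbd] at h2
  rw [mem_TH hac had hcd] at h3
  rw [mem_TH hbc hbd hcd] at h4
  rcases wt_cases a with ha | ha | ha <;> rcases wt_cases b with hb | hb | hb <;>
    rcases wt_cases c with hc | hc | hc <;> rcases wt_cases d with hd | hd | hd <;>
    rw [ha, hb, hc] at h1 <;> rw [ha, hb, hd] at h2 <;> rw [ha, hc, hd] at h3 <;>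
    rw [hb, hc, hd] at h4 <;> revert h1 h2 h3 h4 <;> decide

/-- the class `i` -/
def C (t : ℕ) (i : Fin 3) : Finset (Fin 3 × Fin t) := {i} ×ˢ univ

theorem card_C (t : ℕ) (i : Fin 3) : (C t i).card = t := by
  simp [C]

theorem mem_C {t : ℕ} {i : Fin 3} {v : Fin 3 × Fin t} : v ∈ C t i ↔ v.1 = i := by
  unfold C
  rw [mem_product, mem_singleton]
  simp only [mem_univ, and_true]

theorem C_disj {t : ℕ} {i j : Fin 3} (hij : i ≠ j) : Disjoint (C t i) (C t j) := by
  rw [Finset.disjoint_left]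
  intro v h1 h2
  rw [mem_C] at h1 h2
  exact hij (h1.symm.trans h2)

theorem C_union (t : ℕ) : C t 0 ∪ (C t 1 ∪ C t 2) = univ := by
  ext v
  simp only [mem_union, mem_C, mem_univ, iff_true]
  rcases v with ⟨i, j⟩
  fin_cases i <;> simp

theorem wt_C {t : ℕ} {i : Fin 3} {v : Fin 3 × Fin t} (hv : v ∈ C t i) :
    wt v = if i = 0 then 1 else if i = 1 then 4 else 16 := by
  rw [mem_C] at hv
  unfold wt
  rw [hv]

/-- two vertices in one class, one in another -/
theorem sum_XXY {t : ℕ} {i j : Fin 3} (ε : ℤ)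
    (hε : ∀ x ∈ C t i, ∀ x' ∈ C t i, ∀ y ∈ C t j, x ≠ x' →
      h (TH t) x x' y = ε) :
    ∑ x ∈ C t i, ∑ x' ∈ C t i, ∑ y ∈ C t j, h (TH t) x x' y = ε * ((t : ℤ) ^ 2 - t) * t := by
  have e1 : ∀ x ∈ C t i, ∑ x' ∈ C t i, ∑ y ∈ C t j, h (TH t) x x' y = ε * (t - 1) * t := by
    intro x hx
    rw [← Finset.add_sum_erase _ _ hx, Finset.sum_eq_zero (fun y _ => h_self (TH_three t) x y),
      zero_add, Finset.sum_congr rfl (g := fun _ => ε * t)]
    · rw [Finset.sum_const, Finset.card_erase_of_mem hx, card_C, nsmul_eq_mul]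
      have : 0 < t := by
        have := Finset.card_pos.2 ⟨x, hx⟩
        rwa [card_C] at this
      rw [Nat.cast_sub (by omega)]
      push_cast
      ring
    · intro x' hx'
      rw [mem_erase] at hx'
      rw [Finset.sum_congr rfl (g := fun _ => ε) (fun y hy => hε x hx x' hx'.2 y hy hx'.1.symm),
        Finset.sum_const, card_C, nsmul_eq_mul]
      ring
  rw [Finset.sum_congr rfl e1, Finset.sum_const, card_C, nsmul_eq_mul]
  ring

theorem E_C (t : ℕ) (i : Fin 3) : E (TH t) (C t i) = 0 := by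
  refine Finset.sum_eq_zero fun u hu => Finset.sum_eq_zero fun v hv =>
    Finset.sum_eq_zero fun w hw => ?_
  rcases h_zero_or (TH t) u v w with h0 | h0
  · exact h0
  exfalso
  have he := h_eq_one.1 h0
  obtain ⟨d1, d2, d3⟩ := distinct (TH_three t) he
  rw [mem_TH d1 d2 d3, wt_C hu, wt_C hv, wt_C hw] at he
  revert he
  fin_cases i <;> decide

theorem h_val {t : ℕ} {i j k : Fin 3} {u v w : Fin 3 × Fin t} (hu : u ∈ C t i) (hv : v ∈ C t j)
    (hw : w ∈ C t k) (h1 : u ≠ v) (h2 : u ≠ w) (h3 : v ≠ w) (ε : ℤ)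
    (hε : (if good ((if i = 0 then 1 else if i = 1 then 4 else 16) +
      (if j = 0 then 1 else if j = 1 then 4 else 16) +
      (if k = 0 then 1 else if k = 1 then 4 else 16)) = true then (1 : ℤ) else 0) = ε) :
    h (TH t) u v w = ε := by
  unfold h
  rw [← hε]
  congr 1
  rw [mem_TH h1 h2 h3, wt_C hu, wt_C hv, wt_C hw]

theorem ne_C {t : ℕ} {i j : Fin 3} (hij : i ≠ j) {u v : Fin 3 × Fin t} (hu : u ∈ C t i)
    (hv : v ∈ C t j) : u ≠ v := by
  rintro rfl
  exact hij ((mem_C.1 hu).symm.trans (mem_C.1 hv))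

theorem E_TH (t : ℕ) : E (TH t) univ = 15 * (t : ℤ) ^ 3 - 9 * (t : ℤ) ^ 2 := by
  have d01 : Disjoint (C t 0) (C t 1) := C_disj (by decide)
  have d02 : Disjoint (C t 0) (C t 2) := C_disj (by decide)
  have d12 : Disjoint (C t 1) (C t 2) := C_disj (by decide)
  rw [← C_union, E_union (by rw [Finset.disjoint_union_right]; exact ⟨d01, d02⟩),
    E_union d12, E_C, E_C, E_C]
  have s1 := sum_XXY (t := t) (i := 0) (j := 1) 1 (fun x hx x' hx' y hy hne =>
    h_val hx hx' hy hne (ne_C (by decide) hx hy) (ne_C (by decide) hx' hy) 1 (by decide))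
  have s2 := sum_XXY (t := t) (i := 0) (j := 2) 0 (fun x hx x' hx' y hy hne =>
    h_val hx hx' hy hne (ne_C (by decide) hx hy) (ne_C (by decide) hx' hy) 0 (by decide))
  have s3 := sum_XXY (t := t) (i := 1) (j := 2) 1 (fun x hx x' hx' y hy hne =>
    h_val hx hx' hy hne (ne_C (by decide) hx hy) (ne_C (by decide) hx' hy) 1 (by decide))
  have s4 := sum_XXY (t := t) (i := 2) (j := 1) 0 (fun x hx x' hx' y hy hne =>
    h_val hx hx' hy hne (ne_C (by decide) hx hy) (ne_C (by decide) hx' hy) 0 (by decide))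
  have s5 := sum_XXY (t := t) (i := 1) (j := 0) 0 (fun x hx x' hx' y hy hne =>
    h_val hx hx' hy hne (ne_C (by decide) hx hy) (ne_C (by decide) hx' hy) 0 (by decide))
  have s6 := sum_XXY (t := t) (i := 2) (j := 0) 1 (fun x hx x' hx' y hy hne =>
    h_val hx hx' hy hne (ne_C (by decide) hx hy) (ne_C (by decide) hx' hy) 1 (by decide))
  have s7 : ∑ x ∈ C t 0, ∑ y ∈ C t 1, ∑ z ∈ C t 2, h (TH t) x y z = (t : ℤ) ^ 3 := by
    rw [Finset.sum_congr rfl (g := fun _ => (t : ℤ) ^ 2)]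
    · rw [Finset.sum_const, card_C, nsmul_eq_mul]; ring
    · intro x hx
      rw [Finset.sum_congr rfl (g := fun _ => (t : ℤ))]
      · rw [Finset.sum_const, card_C, nsmul_eq_mul]; ring
      · intro y hy
        rw [Finset.sum_congr rfl (g := fun _ => (1 : ℤ))]
        · rw [Finset.sum_const, card_C, nsmul_eq_mul]; ring
        · intro z hz
          exact h_val hx hy hz (ne_C (by decide) hx hy) (ne_C (by decide) hx hz)
            (ne_C (by decide) hy hz) 1 (by decide)
  -- rearrangements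
  have r1 : ∀ i j : Fin 3, ∑ x ∈ C t i, ∑ y ∈ C t j, ∑ z ∈ C t j, h (TH t) x y z =
      ∑ y ∈ C t j, ∑ z ∈ C t j, ∑ x ∈ C t i, h (TH t) y z x := by
    intro i j
    rw [Finset.sum_comm]
    refine sum_congr rfl fun y _ => ?_
    rw [Finset.sum_comm]
    refine sum_congr rfl fun z _ => sum_congr rfl fun x _ => ?_
    rw [h_rot]
  have r2 : ∑ x ∈ C t 0, ∑ y ∈ C t 2, ∑ z ∈ C t 1, h (TH t) x y z =
      ∑ x ∈ C t 0, ∑ y ∈ C t 1, ∑ z ∈ C t 2, h (TH t) x y z := by
    refine sum_congr rfl fun x _ => ?_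
    rw [Finset.sum_comm]
    refine sum_congr rfl fun y _ => sum_congr rfl fun z _ => h_swap _ _ _ _
  simp only [Finset.sum_union d12, Finset.sum_add_distrib]
  rw [r2, r1 0 1, r1 0 2, r1 1 2, s1, s2, s3, s4, s5, s6, s7]
  ring

theorem card_TH (t : ℕ) : 2 * (TH t).card + 3 * t ^ 2 = 5 * t ^ 3 := by
  have h1 := E_eq (TH_three t) (univ : Finset (Fin 3 × Fin t))
  rw [E_TH] at h1
  have hH : ((TH t).filter fun e => e ⊆ univ) = TH t := by
    apply Finset.filter_true_of_mem
    intro e _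
    exact Finset.subset_univ e
  rw [hH] at h1
  have : (2 * (TH t).card + 3 * t ^ 2 : ℤ) = 5 * (t : ℤ) ^ 3 := by linarith
  exact_mod_cast this

/-- the levels: class 1, class 2, class 0 from below -/
def lev {t : ℕ} (v : Fin 3 × Fin t) : ℕ := if v.1 = 0 then 3 else if v.1 = 1 then 1 else 2

theorem lev_pos {t : ℕ} (v : Fin 3 × Fin t) : 1 ≤ lev v := by
  unfold lev; split_ifs <;> norm_num

theorem lev_indep {t : ℕ} : ∀ e ∈ TH t, ∀ i ≥ 1, ∃ v ∈ e, lev v ≠ i := by
  intro e he i _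
  by_contra hcon
  push Not at hcon
  obtain ⟨u, v, w, d1, d2, d3, rfl⟩ := Finset.card_eq_three.1 (TH_three t e he)
  rw [mem_TH d1 d2 d3] at he
  have h1 := hcon u (by simp)
  have h2 := hcon v (by simp)
  have h3 := hcon w (by simp)
  have e1 : lev u = lev v := h1.trans h2.symm
  have e2 : lev u = lev w := h1.trans h3.symm
  have key : ∀ i j k : Fin 3, (if i = 0 then 3 else if i = 1 then 1 else 2) =
      (if j = 0 then 3 else if j = 1 then 1 else 2) →
      (if i = 0 then 3 else if i = 1 then 1 else 2) =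
      (if k = 0 then 3 else if k = 1 then 1 else 2) →
      good ((if i = 0 then 1 else if i = 1 then 4 else 16) +
      (if j = 0 then 1 else if j = 1 then 4 else 16) +
      (if k = 0 then 1 else if k = 1 then 4 else 16)) = false := by decide
  have := key u.1 v.1 w.1 e1 e2
  unfold wt at he
  rw [this] at he
  exact absurd he (by decide)

theorem lev_link {t : ℕ} (a : Fin 3 × Fin t) : ∃ S : Finset (Fin 3 × Fin t), ∀ y z, y ≠ z →
    lev y < lev a → lev z < lev a →
    (({a, y, z} : Finset (Fin 3 × Fin t)) ∈ TH t ↔ ¬ (y ∈ S ∧ z ∈ S)) := by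
  refine ⟨if a.1 = 0 then C t 1 else ∅, ?_⟩
  intro y z hyz hy hz
  have ha : a ≠ y := by rintro rfl; exact lt_irrefl _ hy
  have ha' : a ≠ z := by rintro rfl; exact lt_irrefl _ hz
  rw [mem_TH ha ha' hyz]
  have key : ∀ i j k : Fin 3, (if j = 0 then 3 else if j = 1 then 1 else 2) <
      (if i = 0 then 3 else if i = 1 then 1 else 2) →
      (if k = 0 then 3 else if k = 1 then 1 else 2) <
      (if i = 0 then 3 else if i = 1 then 1 else 2) →
      (good ((if i = 0 then 1 else if i = 1 then 4 else 16) +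
      (if j = 0 then 1 else if j = 1 then 4 else 16) +
      (if k = 0 then 1 else if k = 1 then 4 else 16)) = true ↔ ¬ (i = 0 ∧ j = 1 ∧ k = 1)) := by
    decide
  have hk := key a.1 y.1 z.1 hy hz
  unfold wt
  rw [hk]
  by_cases h0 : a.1 = 0
  · rw [if_pos h0, mem_C, mem_C]
    tauto
  · rw [if_neg h0]
    simp [h0]

end Pool.Agent.K4H68.CL
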